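import Pool.Agent.Helper74.HG.GoalsC

/-!
# Packet HG-BSP: specialisation of Bernstein-Sato polynomials
-/

namespace Pool.Agent.Helper1.HG.BSP

open MvPolynomial Pool.Agent.Helper74.HG

/-- The operator `P` is defined over the subring `A` and can be specialised along `θ`. -/
def Sp {σ : Type} (A : Subring ℂ) (θ : A →+* ℂ) (P : ℂ → Module.End ℂ (MvPolynomial σ ℂ)) : Prop :=
  ∃ Q ∈ DSk ℂ σ, ∀ (N : ℕ) (p : MvPolynomial σ A), ∃ q : MvPolynomial σ A,
    P (N : ℂ) (map A.subtype p) = map A.subtype q ∧ Q (N : ℂ) (map θ p) = map θ q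

theorem sp_X {σ : Type} (A : Subring ℂ) (θ : A →+* ℂ) (i : σ) :
    Sp A θ (fun _ : ℂ => LinearMap.mulLeft ℂ (X i : MvPolynomial σ ℂ)) := by
  refine ⟨fun _ : ℂ => LinearMap.mulLeft ℂ (X i : MvPolynomial σ ℂ), ?_, ?_⟩
  · exact Algebra.subset_adjoin (Or.inl (Or.inl ⟨i, rfl⟩))
  · intro N p
    exact ⟨X i * p, by simp, by simp⟩

theorem sp_D {σ : Type} (A : Subring ℂ) (θ : A →+* ℂ) (i : σ) :
    Sp A θ (fun _ : ℂ => ((pderiv i : Derivation ℂ (MvPolynomial σ ℂ) (MvPolynomial σ ℂ)) :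
          MvPolynomial σ ℂ →ₗ[ℂ] MvPolynomial σ ℂ)) := by
  refine ⟨fun _ : ℂ => ((pderiv i : Derivation ℂ (MvPolynomial σ ℂ) (MvPolynomial σ ℂ)) :
          MvPolynomial σ ℂ →ₗ[ℂ] MvPolynomial σ ℂ), ?_, ?_⟩
  · exact Algebra.subset_adjoin (Or.inl (Or.inr ⟨i, rfl⟩))
  · intro N p
    exact ⟨pderiv i p, by simp [pderiv_map], by simp [pderiv_map]⟩

theorem sp_s {σ : Type} (A : Subring ℂ) (θ : A →+* ℂ) :
    Sp A θ (fun s : ℂ => s • (1 : Module.End ℂ (MvPolynomial σ ℂ))) := by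
  refine ⟨fun s : ℂ => s • (1 : Module.End ℂ (MvPolynomial σ ℂ)), ?_, ?_⟩
  · exact Algebra.subset_adjoin (Or.inr rfl)
  · intro N p
    refine ⟨(N : MvPolynomial σ A) * p, ?_, ?_⟩
    · simp [Algebra.smul_def]
    · simp [Algebra.smul_def]

theorem sp_c {σ : Type} (A : Subring ℂ) (θ : A →+* ℂ) (c : ℂ) (hc : c ∈ A) :
    Sp A θ (algebraMap ℂ (ℂ → Module.End ℂ (MvPolynomial σ ℂ)) c) := by
  refine ⟨algebraMap ℂ (ℂ → Module.End ℂ (MvPolynomial σ ℂ)) (θ ⟨c, hc⟩),
    Subalgebra.algebraMap_mem _ _, ?_⟩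
  intro N p
  refine ⟨C ⟨c, hc⟩ * p, ?_, ?_⟩
  · simp [Algebra.smul_def, Pi.algebraMap_apply, Module.algebraMap_end_apply]
  · simp [Algebra.smul_def, Pi.algebraMap_apply, Module.algebraMap_end_apply]

theorem sp_add {σ : Type} (A : Subring ℂ) (θ : A →+* ℂ)
    {P P' : ℂ → Module.End ℂ (MvPolynomial σ ℂ)} (h : Sp A θ P) (h' : Sp A θ P') :
    Sp A θ (P + P') := by
  obtain ⟨Q, hQ, h1⟩ := h
  obtain ⟨Q', hQ', h2⟩ := h'
  refine ⟨Q + Q', add_mem hQ hQ', fun N p => ?_⟩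
  obtain ⟨q, a, b⟩ := h1 N p
  obtain ⟨q', a', b'⟩ := h2 N p
  exact ⟨q + q', by simp [a, a'], by simp [b, b']⟩

theorem sp_mul {σ : Type} (A : Subring ℂ) (θ : A →+* ℂ)
    {P P' : ℂ → Module.End ℂ (MvPolynomial σ ℂ)} (h : Sp A θ P) (h' : Sp A θ P') :
    Sp A θ (P * P') := by
  obtain ⟨Q, hQ, h1⟩ := h
  obtain ⟨Q', hQ', h2⟩ := h'
  refine ⟨Q * Q', mul_mem hQ hQ', fun N p => ?_⟩
  obtain ⟨q', a', b'⟩ := h2 N p
  obtain ⟨q, a, b⟩ := h1 N q'
  refine ⟨q, ?_, ?_⟩
  · simp only [Pi.mul_apply, Module.End.mul_apply]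
    rw [a', a]
  · simp only [Pi.mul_apply, Module.End.mul_apply]
    rw [b', b]

theorem sp_all {σ : Type} (P : ℂ → Module.End ℂ (MvPolynomial σ ℂ)) (hP : P ∈ DSk ℂ σ) :
    ∃ s : Finset ℂ, ∀ s' : Finset ℂ, s ⊆ s' → ∀ θ : Rg s' →+* ℂ, Sp (Rg s') θ P := by
  classical
  unfold DSk at hP
  induction hP using Algebra.adjoin_induction with
  | mem x hx =>
    refine ⟨∅, fun s' _ θ => ?_⟩
    rcases hx with (⟨i, rfl⟩ | ⟨i, rfl⟩) | hx
    · exact sp_X _ _ i
    · exact sp_D _ _ i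
    · rw [Set.mem_singleton_iff] at hx
      subst hx
      exact sp_s _ _
  | algebraMap c =>
    refine ⟨{c}, fun s' h θ => sp_c _ _ c ?_⟩
    exact Subring.subset_closure (h (Finset.mem_singleton_self c))
  | add x y _ _ hx hy =>
    obtain ⟨s, hs⟩ := hx
    obtain ⟨t, ht⟩ := hy
    exact ⟨s ∪ t, fun s' h θ => sp_add _ _ (hs s' (Finset.union_subset_left h) θ)
      (ht s' (Finset.union_subset_right h) θ)⟩
  | mul x y _ _ hx hy =>
    obtain ⟨s, hs⟩ := hx
    obtain ⟨t, ht⟩ := hy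
    exact ⟨s ∪ t, fun s' h θ => sp_mul _ _ (hs s' (Finset.union_subset_left h) θ)
      (ht s' (Finset.union_subset_right h) θ)⟩

theorem t : Pool.Agent.Helper74.HG.BSP := by
  classical
  intro σ _ f b ⟨P, hP, h, hh, hN⟩
  obtain ⟨s, hs⟩ := sp_all P hP
  refine ⟨s ∪ h.support.image (fun m => coeff m h) ∪ {(constantCoeff h)⁻¹}, ?_⟩
  intro s' hs' θ g' hg'
  have hs1 : s ⊆ s' := (Finset.union_subset_left (Finset.union_subset_left hs'))
  have hs2 : h.support.image (fun m => coeff m h) ⊆ s' :=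
    Finset.union_subset_right (Finset.union_subset_left hs')
  have hs3 : (constantCoeff h)⁻¹ ∈ Rg s' :=
    Subring.subset_closure (Finset.union_subset_right hs' (Finset.mem_singleton_self _))
  obtain ⟨Q, hQ, hq⟩ := hs s' hs1 θ
  have hinj : Function.Injective (map (Rg s').subtype : MvPolynomial σ (Rg s') → MvPolynomial σ ℂ) :=
    map_injective _ Subtype.val_injective
  obtain ⟨h', hh'⟩ : ∃ h' : MvPolynomial σ (Rg s'), map (Rg s').subtype h' = h := by
    have : h ∈ Set.range (map (Rg s').subtype : MvPolynomial σ (Rg s') →+* MvPolynomial σ ℂ) := by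
      rw [mem_range_map_iff_coeffs_subset]
      intro c hc
      rw [Finset.mem_coe, mem_coeffs_iff] at hc
      obtain ⟨m, hm, rfl⟩ := hc
      exact ⟨⟨coeff m h, Subring.subset_closure (hs2 (Finset.mem_image_of_mem _ hm))⟩, rfl⟩
    exact this
  refine ⟨Q, hQ, map θ h', ?_, ?_⟩
  · have e1 : ((constantCoeff h' : Rg s') : ℂ) = constantCoeff h := by
      rw [← hh', constantCoeff_map]; rfl
    have e2 : constantCoeff h' * ⟨(constantCoeff h)⁻¹, hs3⟩ = 1 := by
      apply Subtype.ext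
      push_cast
      rw [e1]
      exact mul_inv_cancel₀ hh
    rw [constantCoeff_map]
    intro e3
    have := congrArg θ e2
    rw [map_mul, e3, zero_mul, map_one] at this
    exact zero_ne_one this
  · intro N
    obtain ⟨q, ha, hb⟩ := hq N (g' ^ (N + 1))
    have e1 := hN N
    rw [map_pow, hg'] at ha
    rw [map_pow] at hb
    rw [hb]
    rw [ha] at e1
    set r : ℚ := b.eval (N : ℚ) with hr
    have hd : (r.den : ℂ) ≠ 0 := by exact_mod_cast r.den_ne_zero
    have e4 : (r.den : ℚ) * r = r.num := by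
      rw [mul_comm]; exact Rat.mul_den_eq_num r
    have e4' : (r.den : ℂ) * (algebraMap ℚ ℂ r) = (r.num : ℂ) := by
      have := congrArg (algebraMap ℚ ℂ) e4
      rw [map_mul, map_natCast, map_intCast] at this
      exact this
    have e5 : (r.den : MvPolynomial σ (Rg s')) * q = (r.num : MvPolynomial σ (Rg s')) * h' * g' ^ N := by
      apply hinj
      rw [map_mul, map_mul, map_mul, map_pow, hg', hh', map_natCast, map_intCast, e1]
      have : (r.num : MvPolynomial σ ℂ) = (r.den : MvPolynomial σ ℂ) * C (algebraMap ℚ ℂ r) := by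
        have := congrArg (C (σ := σ)) e4'
        rw [map_mul, map_natCast, map_intCast] at this
        exact this.symm
      rw [this]; ring
    have e6 := congrArg (map θ) e5
    rw [map_mul, map_mul, map_mul, map_pow, map_natCast, map_intCast] at e6
    have e7 : (r.num : MvPolynomial σ ℂ) = (r.den : MvPolynomial σ ℂ) * C (algebraMap ℚ ℂ r) := by
      have := congrArg (C (σ := σ)) e4'
      rw [map_mul, map_natCast, map_intCast] at this
      exact this.symm
    rw [e7] at e6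
    have hd' : (r.den : MvPolynomial σ ℂ) ≠ 0 := by
      exact_mod_cast r.den_ne_zero
    apply mul_left_cancel₀ hd'
    rw [e6]; ring

end Pool.Agent.Helper1.HG.BSP
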