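import Pool.Agent.Helper74.HG.GoalsG

/-!
# Project HG, packet PIS: the Poincare series does not change under isomorphisms
-/

namespace Pool.Agent.Helper1.HG.PIS

open MvPolynomial Pool.Agent.Helper74.HG

variable {σ τ : Type} {R : Type} [CommRing R]

/-- The bijection of the points. -/
noncomputable def pt (φ : MvPolynomial σ ℤ ≃ₐ[ℤ] MvPolynomial τ ℤ) : (τ → R) ≃ (σ → R) where
  toFun y := fun i => aeval y (φ (X i))
  invFun x := fun j => aeval x (φ.symm (X j))
  left_inv y := by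
    funext j
    have h : (aeval (fun i => aeval y (φ (X i))) : MvPolynomial σ ℤ →ₐ[ℤ] R) =
        (aeval y : MvPolynomial τ ℤ →ₐ[ℤ] R).comp (φ : MvPolynomial σ ℤ →ₐ[ℤ] MvPolynomial τ ℤ) := by
      ext i; simp
    show aeval (fun i => aeval y (φ (X i))) (φ.symm (X j)) = y j
    rw [h]; simp
  right_inv x := by
    funext i
    have h : (aeval (fun j => aeval x (φ.symm (X j))) : MvPolynomial τ ℤ →ₐ[ℤ] R) =
        (aeval x : MvPolynomial σ ℤ →ₐ[ℤ] R).comp
          (φ.symm : MvPolynomial τ ℤ →ₐ[ℤ] MvPolynomial σ ℤ) := by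
      ext j; simp
    show aeval (fun j => aeval x (φ.symm (X j))) (φ (X i)) = x i
    rw [h]; simp

theorem aeval_pt (φ : MvPolynomial σ ℤ ≃ₐ[ℤ] MvPolynomial τ ℤ) (f : MvPolynomial σ ℤ)
    (y : τ → R) : aeval (pt φ y) f = aeval y (φ f) := by
  have h : (aeval (pt φ y) : MvPolynomial σ ℤ →ₐ[ℤ] R) =
      (aeval y : MvPolynomial τ ℤ →ₐ[ℤ] R).comp (φ : MvPolynomial σ ℤ →ₐ[ℤ] MvPolynomial τ ℤ) := by
    ext i; simp [pt]
  rw [h]; simp

theorem sol_eq (φ : MvPolynomial σ ℤ ≃ₐ[ℤ] MvPolynomial τ ℤ) (f : MvPolynomial σ ℤ) (p m : ℕ) :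
    sol (φ f) p m = sol f p m := by
  unfold sol
  apply Set.ncard_congr (fun y _ => pt φ y)
  · intro y hy
    simpa [aeval_pt] using hy
  · intro y z _ _ h
    exact (pt φ).injective h
  · intro x hx
    refine ⟨(pt φ).symm x, ?_, by simp⟩
    have := aeval_pt φ f ((pt φ).symm x)
    rw [Equiv.apply_symm_apply] at this
    simpa [this] using hx

theorem card_eq [Fintype σ] [Fintype τ] (φ : MvPolynomial σ ℤ ≃ₐ[ℤ] MvPolynomial τ ℤ)
    (p m : ℕ) : p ^ (Fintype.card τ * m) = p ^ (Fintype.card σ * m) := by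
  have h := Nat.card_congr (pt (R := ZMod (p ^ m)) φ)
  rw [Nat.card_fun, Nat.card_fun, Nat.card_zmod, Nat.card_eq_fintype_card,
    Nat.card_eq_fintype_card] at h
  rw [mul_comm, pow_mul, h, ← pow_mul, mul_comm]

theorem t : Pool.Agent.Helper74.HG.PIS := by
  intro σ τ _ _ φ f p _
  ext m
  simp only [poin, PowerSeries.coeff_mk]
  rw [sol_eq φ f p m]
  congr 1
  exact_mod_cast card_eq φ p m

end Pool.Agent.Helper1.HG.PIS
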